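import Mathlib
import Pool.Agent.H24.MR.Interface
import Pool.Agent.H24.T2.Interface
import Pool.Agent.H67.AG.Defs

/-!
ABSOLUTE GAP (`MP_c59857_nt`), section 9 (number theory to dynamics): definitions.
-/

set_option autoImplicit false

open MeasureTheory ProbabilityTheory Filter Topology Finset
open scoped Nat ENNReal

namespace Pool.Agent.H80.AG

open Pool.Agent.H24.MR (lam dens)
open Pool.Agent.H24.T2 (Pset rel)
open Pool.Agent.H67.AG

/-- the relation at the scale `m`, with the divisibility condition -/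
def RelAt (η : ℝ) (Q : ℕ) {n : ℕ} (β : Fin n → ℕ) (U : Ultrafilter ℕ) (N : ℕ → ℕ) (m : ℕ) :
    Prop :=
  ∃ (c : ℕ) (σ : ℝ), σ ≠ 0 ∧ ∀ p ∈ Pset Q m,
    dens U N {y | y ≡ c [MOD Q] ∧ p ∣ y ∧ rel β lam p y ≠ σ} ≤ η / (p * Q)

/-- the local statement (LOCN') for the constant `η`, which depends on nothing -/
def LocN (η : ℝ) : Prop := ∀ (k Q : ℕ) (β : Fin (k + 1) → ℕ), 0 < Q → Even Q →
  Function.Injective β → ∀ ρ : ℝ, 0 < ρ →
    ∃ (M : Finset ℕ) (wt : ℕ → ℝ), (∀ m ∈ M, 0 ≤ wt m) ∧ ∑ m ∈ M, wt m = 1 ∧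
      ∀ (U : Ultrafilter ℕ) (N : ℕ → ℕ), Tendsto N (U : Filter ℕ) atTop → ∀ B ⊆ M,
        (∀ m ∈ B, RelAt η Q β U N m) → ∑ m ∈ B, wt m ≤ ρ

/-- the theorem (the statement of the hand-in) -/
def AbsGap : Prop := ∃ κ : ℝ, 0 < κ ∧
    ∀ (r : ℕ) (α : Fin r → ℤ) (ε : Fin r → ℕ) (q n₀ : ℕ), Function.Injective α →
      (∀ i, 1 ≤ ε i) → (∃ i, Odd (ε i)) → 0 < q → ∀ ρ : ℝ, 0 < ρ → ∃ K : ℕ, ∀ x y : ℕ, 0 < x →
        K * x ≤ y →
        ∑ N ∈ (Finset.Icc x y).filter (fun N : ℕ =>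
          (1 - κ) * (∑ n ∈ (Finset.Icc 1 N).filter (fun n => n ≡ n₀ [MOD q]),
            |∏ i, ((ArithmeticFunction.moebius (((n : ℤ) + α i).toNat) : ℤ) : ℝ) ^ ε i|)
            < |∑ n ∈ (Finset.Icc 1 N).filter (fun n => n ≡ n₀ [MOD q]),
            ∏ i, ((ArithmeticFunction.moebius (((n : ℤ) + α i).toNat) : ℤ) : ℝ) ^ ε i|),
          (1 : ℝ) / N ≤ ρ * Real.log (y / x)

/-- the sign of a bit -/
def sg (b : Bool) : ℝ := if b then 1 else -1

/-- the relation holds, without the divisibility condition, on average over the primes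
`≡ 1 (mod Q w!)` of the scale `m`; `i` measures the error of the decoupling -/
def GoodAt (η : ℝ) (Q : ℕ) {n : ℕ} (β : Fin n → ℕ) (U : Ultrafilter ℕ) (N : ℕ → ℕ) (w i m : ℕ)
    (c : ℕ) (b : Bool) : Prop :=
  c < Q ∧ ∑ p ∈ Pset (Q * w !) m, dens U N {y | y ≡ c [MOD Q] ∧ rel β lam p y ≠ sg b} ≤
    (10 * η + 2 / ((i : ℝ) + 1)) / Q * (Pset (Q * w !) m).card

/-- a finite family of densities with weights -/
structure Fam where
  n : ℕ
  u : Fin n → ℝ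
  u0 : ∀ a, 0 ≤ u a
  u1 : ∑ a, u a = 1
  U : Fin n → Ultrafilter ℕ
  N : Fin n → ℕ → ℕ
  hN : ∀ a, Tendsto (N a) (U a : Filter ℕ) atTop

/-- the mean density of a family of sets -/
noncomputable def Fam.d (F : Fam) (A : Fin F.n → Set ℕ) : ℝ :=
  ∑ a, F.u a * dens (F.U a) (F.N a) (A a)

/-- labels: `(1, c, b)` if the relation holds for the class `c` and the sign `b` -/
abbrev Lb (Q : ℕ) : Type := Bool × ZMod Q × Bool

/-- the symbolic space: signs, residue class, labels of the pairs `(w, i)` -/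
abbrev Om (Q : ℕ) : Type := (ℤ → Bool) × ZMod Q × (ℕ × ℕ → Lb Q)

instance borelOm (Q : ℕ) [NeZero Q] : BorelSpace (Om Q) := by
  have h1 : BorelSpace (ℕ × ℕ → Lb Q) := inferInstance
  have h2 : BorelSpace (ZMod Q × (ℕ × ℕ → Lb Q)) := Prod.borelSpace
  exact Prod.borelSpace

/-- the shift -/
def sh (Q : ℕ) : Om Q ≃ₜ Om Q where
  toFun ω := (fun t => ω.1 (t + 1), ω.2.1 + 1, ω.2.2)
  invFun ω := (fun t => ω.1 (t - 1), ω.2.1 - 1, ω.2.2)
  left_inv ω := by simp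
  right_inv ω := by simp
  continuous_toFun := by fun_prop
  continuous_invFun := by fun_prop

/-- the shift as a measurable equivalence -/
def shM (Q : ℕ) [NeZero Q] : Om Q ≃ᵐ Om Q := (sh Q).toMeasurableEquiv

/-- the sign at time zero -/
def DD (Q : ℕ) (ω : Om Q) : ℝ := sg (ω.1 0)

/-- the relation of the prime `p` fails for the sign `b` -/
def RB (Q : ℕ) {n : ℕ} (β : Fin n → ℕ) (p : ℕ) (b : Bool) : Set (Om Q) :=
  {ω | ∏ j, DD Q ((sh Q)^[p * β j] ω) ≠ sg b}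

open Classical in
/-- the point of the symbolic space which belongs to the natural number `n` -/
noncomputable def ptO (Q : ℕ) (l : ℕ × ℕ → Lb Q) (n : ℕ) : Om Q :=
  (fun t : ℤ => decide (0 ≤ (n : ℤ) + t → lam ((n : ℤ) + t).toNat = 1), (n : ZMod Q), l)

/-- the measure on the symbolic space which comes from a failure of the local statement -/
structure SysP (Q : ℕ) [NeZero Q] {n : ℕ} (β : Fin n → ℕ) (ρ η : ℝ) (m : ℕ → ℕ → ℕ)
    (P : Measure (Om Q)) : Prop where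
  prob : IsProbabilityMeasure P
  inv : MeasurePreserving (shM Q) P P
  mi : ∀ w i, i ≤ m w i
  lab : ∀ w i, ρ / 2 ≤ P.real {ω | (ω.2.2 (w, i)).1 = true}
  relation : ∀ w i, ∑ p ∈ Pset (Q * w !) (m w i),
    P.real {ω | (ω.2.2 (w, i)).1 = true ∧ ω.2.1 = (ω.2.2 (w, i)).2.1 ∧
      ω ∈ RB Q β p (ω.2.2 (w, i)).2.2} ≤
    (10 * η + 2 / ((i : ℝ) + 1)) / Q * (Pset (Q * w !) (m w i)).card *
      P.real {ω | (ω.2.2 (w, i)).1 = true}
  mr : ∀ W : ℕ, 0 < W → ∀ ε : ℝ, 0 < ε → ∃ h₀ : ℕ, ∀ h, h₀ ≤ h →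
    P.real {ω | ε * h ≤ |∑ y ∈ range h, DD Q ((shM Q)^[W * y] ω)|} ≤ ε

end Pool.Agent.H80.AG
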