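import Mathlib
import Pool.Agent.H80.AG.Defs

/-!
ABSOLUTE GAP (`MP_c59857_nt`), section 9: statements of the modules.
-/

set_option autoImplicit false

open MeasureTheory ProbabilityTheory Filter Topology Finset
open scoped Nat ENNReal

namespace Pool.Agent.H80.AG

open Pool.Agent.H24.MR (lam dens)
open Pool.Agent.H24.T2 (Pset rel StatementEN2)
open Pool.Agent.H67.AG

/-- MMX: the minimax principle for a finite family of finite sets -/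
def T_MMX : Prop := ∀ (M : Finset ℕ) (V : Finset (Finset ℕ)) (ρ : ℝ), M.Nonempty →
  (∀ B ∈ V, B ⊆ M) → 0 < ρ →
  (∀ wt : ℕ → ℝ, (∀ m ∈ M, 0 ≤ wt m) → ∑ m ∈ M, wt m = 1 → ∃ B ∈ V, ρ < ∑ m ∈ B, wt m) →
  ∃ u : Finset ℕ → ℝ, (∀ B ∈ V, 0 ≤ u B) ∧ ∑ B ∈ V, u B = 1 ∧
    ∀ m ∈ M, ρ ≤ ∑ B ∈ V, if m ∈ B then u B else 0

/-- ENS: entropy decrement for the modulus `Q w!` (from `StatementEN2`) -/
def T_ENS : Prop := ∀ (Q k : ℕ) (β : Fin k → ℕ) (ρ : ℝ) (w i : ℕ), 0 < Q → 0 < ρ →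
  ∃ (M : Finset ℕ) (wt : ℕ → ℝ),
    (∀ m ∈ M, i ≤ m ∧ (Pset (Q * w !) m).Nonempty ∧ 0 ≤ wt m) ∧ ∑ m ∈ M, wt m = 1 ∧
    ∀ η : ℝ, 0 < η → η < 1 → ∀ (U : Ultrafilter ℕ) (N : ℕ → ℕ),
      Tendsto N (U : Filter ℕ) atTop → ∀ B ⊆ M,
        (∀ m ∈ B, RelAt η Q β U N m ∧ ¬ ∃ c b, GoodAt η Q β U N w i m c b) → ∑ m ∈ B, wt m ≤ ρ

/-- ARR: the families of densities which come from a failure of the local statement -/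
def T_ARR : Prop := ∀ η : ℝ, 0 < η → η < 1 → ¬ LocN η →
  ∃ (k Q : ℕ) (β : Fin (k + 1) → ℕ) (ρ : ℝ) (Mf : ℕ → ℕ → Finset ℕ), 0 < Q ∧ Even Q ∧
    Function.Injective β ∧ 0 < ρ ∧ (∀ w i, ∀ m ∈ Mf w i, i ≤ m) ∧
    ∀ J : ℕ, ∃ (F : Fam) (m : ℕ → ℕ → ℕ) (l : Fin F.n → ℕ × ℕ → Lb Q), ∀ w ≤ J, ∀ i ≤ J,
      m w i ∈ Mf w i ∧
      ρ / 2 ≤ ∑ a, (if (l a (w, i)).1 = true then F.u a else 0) ∧
      ∀ a, (l a (w, i)).1 = true →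
        ∑ p ∈ Pset (Q * w !) (m w i), dens (F.U a) (F.N a)
          {y | (y : ZMod Q) = (l a (w, i)).2.1 ∧ rel β lam p y ≠ sg (l a (w, i)).2.2} ≤
          (10 * η + 2 / ((i : ℝ) + 1)) / Q * (Pset (Q * w !) (m w i)).card

/-- CPL: limits of probability measures on a compact space along an ultrafilter -/
def T_CPL : Prop := ∀ (Ω : Type) [TopologicalSpace Ω] [CompactSpace Ω] [T2Space Ω]
  [SecondCountableTopology Ω] [MeasurableSpace Ω] [BorelSpace Ω] (U : Ultrafilter ℕ)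
  (P : ℕ → Measure Ω), (∀ᶠ n in (U : Filter ℕ), IsProbabilityMeasure (P n)) →
  ∃ ν : Measure Ω, IsProbabilityMeasure ν ∧
    ∀ f : C(Ω, ℝ), Tendsto (fun n => ∫ ω, f ω ∂(P n)) (U : Filter ℕ) (𝓝 (∫ ω, f ω ∂ν))

/-- UNI: the invariant measure which belongs to a sequence of families of densities -/
def T_UNI : Prop := ∀ (Ω : Type) [TopologicalSpace Ω] [CompactSpace Ω] [T2Space Ω]
  [SecondCountableTopology Ω] [MeasurableSpace Ω] [BorelSpace Ω] (T : Ω ≃ₜ Ω)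
  (V : Ultrafilter ℕ) (F : ℕ → Fam) (pt : ∀ J, Fin (F J).n → ℕ → Ω),
  (∀ J a n, T (pt J a n) = pt J a (n + 1)) →
  ∃ P : Measure Ω, IsProbabilityMeasure P ∧ MeasurePreserving T P P ∧
    ∀ C : Set Ω, IsClopen C →
      Tendsto (fun J => (F J).d fun a => {n | pt J a n ∈ C}) (V : Filter ℕ) (𝓝 (P.real C))

/-- PTO: the points of the symbolic space -/
def T_PTO : Prop := ∀ (Q : ℕ) [NeZero Q] (l : ℕ × ℕ → Lb Q),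
  (∀ n, sh Q (ptO Q l n) = ptO Q l (n + 1)) ∧ (∀ n, (ptO Q l n).2 = ((n : ZMod Q), l)) ∧
  (∀ n j, DD Q ((sh Q)^[j] (ptO Q l n)) = lam (n + j)) ∧
  (∀ (k : ℕ) (β : Fin k → ℕ) (p n : ℕ) (b : Bool),
    ptO Q l n ∈ RB Q β p b ↔ rel β lam p n ≠ sg b) ∧
  (∀ w i : ℕ, IsClopen {ω : Om Q | (ω.2.2 (w, i)).1 = true}) ∧
  (∀ (k : ℕ) (β : Fin k → ℕ) (p w i : ℕ),
    IsClopen {ω : Om Q | (ω.2.2 (w, i)).1 = true ∧ ω.2.1 = (ω.2.2 (w, i)).2.1 ∧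
      ω ∈ RB Q β p (ω.2.2 (w, i)).2.2}) ∧
  ∀ (W h : ℕ) (ε : ℝ), IsClopen {ω : Om Q | ε ≤ |∑ y ∈ range h, DD Q ((sh Q)^[W * y] ω)|}

/-- SYS: the measure on the symbolic space -/
def T_SYS : Prop := ∀ η : ℝ, 0 < η → η < 1 → ¬ LocN η →
  ∃ (k Q : ℕ) (_ : NeZero Q) (β : Fin (k + 1) → ℕ) (ρ : ℝ) (m : ℕ → ℕ → ℕ)
    (P : Measure (Om Q)), Even Q ∧ Function.Injective β ∧ 0 < ρ ∧ SysP Q β ρ η m P

/-- MRC: from the average over the whole system to almost every component -/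
def T_MRC : Prop := ∀ (Ω : Type) [MeasurableSpace Ω] [StandardBorelSpace Ω] (P : Measure Ω)
  [IsProbabilityMeasure P] (T : Ω ≃ᵐ Ω) (κ : Kernel Ω Ω) [IsMarkovKernel κ] (D : Ω → ℝ) (W : ℕ),
  Measurable D → (∀ ω, D ω = 1 ∨ D ω = -1) → 0 < W →
  (∀ B, MeasurableSet B → P B = ∫⁻ ω, κ ω B ∂P) → (∀ᵐ ω ∂P, MeasurePreserving T (κ ω) (κ ω)) →
  (∀ ε : ℝ, 0 < ε → ∃ h₀ : ℕ, ∀ h, h₀ ≤ h →
    P.real {ω | ε * h ≤ |∑ y ∈ range h, D (T^[W * y] ω)|} ≤ ε) →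
  ∀ᵐ ω ∂P, (κ ω)[D | Inv T W] =ᵐ[κ ω] 0

/-- ER1: ergodic components -/
def T_ER1 : Prop := ∀ (Q n : ℕ) [NeZero Q] (β : Fin n → ℕ) (ρ η : ℝ) (m : ℕ → ℕ → ℕ)
  (P : Measure (Om Q)), SysP Q β ρ η m P →
  ∃ κ : Kernel (Om Q) (Om Q), IsMarkovKernel κ ∧ (∀ B, MeasurableSet B → P B = ∫⁻ ω, κ ω B ∂P) ∧
    ∀ᵐ ω ∂P, Ergodic (shM Q) (κ ω) ∧
      ∀ W, 0 < W → (κ ω)[DD Q | Inv (shM Q) W] =ᵐ[κ ω] 0

/-- ER2: a component on which the relation holds -/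
def T_ER2 : Prop := ∀ (Q n : ℕ) [NeZero Q] (β : Fin n → ℕ) (ρ η : ℝ) (m : ℕ → ℕ → ℕ)
  (P : Measure (Om Q)), 0 < ρ → 0 < η → SysP Q β ρ η m P →
  ∀ κ : Kernel (Om Q) (Om Q), IsMarkovKernel κ → (∀ B, MeasurableSet B → P B = ∫⁻ ω, κ ω B ∂P) →
    (∀ᵐ ω ∂P, Ergodic (shM Q) (κ ω)) → ∀ S : Set (Om Q), (∀ᵐ ω ∂P, ω ∈ S) →
    ∃ ω ∈ S, ∃ᶠ w in atTop, ∃ᶠ i in atTop, ∃ (c : ZMod Q) (b : Bool),
      ∑ p ∈ Pset (Q * w !) (m w i), (κ ω).real {x | x.2.1 = c ∧ x ∈ RB Q β p b} ≤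
        22 * η / Q * (Pset (Q * w !) (m w i)).card

/-- CTX: pigeonhole, and the data -/
def T_CTX : Prop := ∀ (Q k : ℕ) [NeZero Q] (β : Fin (k + 1) → ℕ) (η : ℝ) (m : ℕ → ℕ → ℕ)
  (ν : Measure (Om Q)), Even Q → Function.Injective β → 0 < η → 22 * η ≤ κ₀ →
  IsProbabilityMeasure ν → Ergodic (shM Q) ν →
  (∀ W, 0 < W → ν[DD Q | Inv (shM Q) W] =ᵐ[ν] 0) → (∀ w i, i ≤ m w i) →
  (∃ᶠ w in atTop, ∃ᶠ i in atTop, ∃ (c : ZMod Q) (b : Bool),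
    ∑ p ∈ Pset (Q * w !) (m w i), ν.real {x | x.2.1 = c ∧ x ∈ RB Q β p b} ≤
      22 * η / Q * (Pset (Q * w !) (m w i)).card) →
  Nonempty Ctx

/-- FRT: the front end (adaptation of `Pool.Agent.H66.AAS.stepA` and of the hand-in
`AlmostAllScales`) -/
def T_FRT : Prop := ∀ η : ℝ, 0 < η → LocN η → AbsGap

end Pool.Agent.H80.AG
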