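import Mathlib
import Pool.Agent.H80.AG.Targets9

/-!
ABSOLUTE GAP (`MP_c59857_nt`), section 9: assembly.
-/

set_option autoImplicit false

open MeasureTheory ProbabilityTheory Filter Topology Finset
open scoped Nat ENNReal

namespace Pool.Agent.H80.AG

open Pool.Agent.H67.AG

/-- if the dynamical data are contradictory, then the theorem holds -/
theorem fin9 (hS : T_SYS) (h1 : T_ER1) (h2 : T_ER2) (hC : T_CTX) (hF : T_FRT) (hE : Ctx → False) :
    AbsGap := by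
  have hη : (0 : ℝ) < κ₀ / 30 := by unfold κ₀; norm_num
  refine hF (κ₀ / 30) hη ?_
  by_contra hno
  obtain ⟨k, Q, hQ, β, ρ, m, P, hQe, hβ, hρ, hP⟩ := hS _ hη (by unfold κ₀; norm_num) hno
  obtain ⟨κ, hκ, hd, hae⟩ := h1 Q (k + 1) β ρ _ m P hP
  obtain ⟨ω, hω, hfr⟩ := h2 Q (k + 1) β ρ _ m P hρ hη hP κ hκ hd (hae.mono fun _ h => h.1)
    {ω | Ergodic (shM Q) (κ ω) ∧ ∀ W, 0 < W → (κ ω)[DD Q | Inv (shM Q) W] =ᵐ[κ ω] 0} hae
  have hpr : IsProbabilityMeasure (κ ω) := inferInstance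
  obtain ⟨c⟩ := hC Q k β _ m (κ ω) hQe hβ hη (by unfold κ₀; norm_num) hpr hω.1 hω.2 hP.mi hfr
  exact hE c

end Pool.Agent.H80.AG
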