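import Pool.Agent.H66.AAS.Front
import Pool.Agent.H66.AAS.StepB
import Pool.Agent.H80.AG.Targets9

/-!
FRT: the front end of the absolute gap (adapted from `Pool.Agent.H66.AAS.stepA`).
-/

set_option autoImplicit false

open Finset Filter Topology

namespace Pool.Agent.H80.AG

open Pool.Agent.H24.MR
open Pool.Agent.H24.T2
open Pool.Agent.H14.T2
open Pool.Agent.H27.MR (WW WW_pos le_WW sq_dvd_WW)
open Pool.Agent.H59.MR (ratio tendsto_dens finAddInv_dens fai_mono)
open Pool.Agent.H66.AAS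

open Classical in
theorem stepA' (η : ℝ) (hη : 0 < η) (hloc0 : LocN η) (k : ℕ) :
    ∀ (r : ℕ) (α : Fin r → ℤ) (ε : Fin r → ℕ) (q n₀ : ℕ),
    Function.Injective α → (∀ i, 1 ≤ ε i) →
    ((Finset.univ : Finset (Fin r)).filter (fun i => Odd (ε i))).card = k + 1 → 0 < q →
    ∀ ρ : ℝ, 0 < ρ → ∃ (M : Finset ℕ) (wt : ℕ → ℝ), (∀ m ∈ M, 0 ≤ wt m) ∧ ∑ m ∈ M, wt m = 1 ∧
      ∃ N₀ : ℕ, ∀ N, N₀ ≤ N →
        ∑ m ∈ M.filter (fun m => BadS α ε q n₀ (η / 4) (N / 2 ^ m)), wt m ≤ ρ := by
  intro r α ε q n₀ hα hε hcard hq ρ hρ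
  obtain ⟨C, hC⟩ : ∃ C : ℕ, ∀ i, |α i| ≤ C := by
    refine ⟨∑ i, (α i).natAbs, fun i => ?_⟩
    have h1 : (α i).natAbs ≤ ∑ i, (α i).natAbs :=
      Finset.single_le_sum (fun j _ => Nat.zero_le ((α j).natAbs)) (Finset.mem_univ i)
    rw [← Int.natCast_natAbs]
    exact_mod_cast h1
  obtain ⟨w, hw⟩ := exists_nat_gt (max (2 * r / η) (max q 2) : ℝ)
  have hw1 : 2 * (r : ℝ) / η < w := lt_of_le_of_lt (le_max_left _ _) hw
  have hw2 : q < w := by
    exact_mod_cast lt_of_le_of_lt ((le_max_left (q : ℝ) 2).trans (le_max_right _ _)) hw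
  have hw3 : 2 < w := by
    exact_mod_cast lt_of_le_of_lt ((le_max_right (q : ℝ) 2).trans (le_max_right _ _)) hw
  have hw0 : (0 : ℝ) < w := by exact_mod_cast (by omega : 0 < w)
  obtain ⟨Q, hQ⟩ : ∃ Q, Q = WW q w := ⟨_, rfl⟩
  have hQ0 : 0 < Q := hQ ▸ WW_pos hq w
  have hQr : (0 : ℝ) < Q := by exact_mod_cast hQ0
  have hQe : Even Q := by
    rw [hQ, even_iff_two_dvd]
    exact (dvd_pow_self 2 two_ne_zero).trans (sq_dvd_WW Nat.prime_two (by omega))
  have hqQ : q ∣ Q := hQ ▸ ⟨primorial w ^ 2, rfl⟩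
  obtain ⟨t, ht⟩ : ∃ t, t = Q * C := ⟨_, rfl⟩
  have htC : C ≤ t := by rw [ht]; exact Nat.le_mul_of_pos_left _ hQ0
  -- enumeration of the odd exponents
  have e := ((Finset.univ : Finset (Fin r)).filter (fun i => Odd (ε i))).equivFinOfCardEq hcard
  set β : Fin (k + 1) → ℕ := fun i => (α (e.symm i).1 + t).toNat with hβ
  have hβα : ∀ i, (β i : ℤ) = α (e.symm i).1 + t := by
    intro i
    rw [hβ]
    have h1 := (abs_le.1 (hC (e.symm i).1)).1
    have h2 : (C : ℤ) ≤ t := by exact_mod_cast htC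
    exact Int.toNat_of_nonneg (by linarith)
  have hβinj : Function.Injective β := by
    intro i j hij
    have h1 : (β i : ℤ) = β j := by rw [hij]
    rw [hβα, hβα] at h1
    have h2 : α (e.symm i).1 = α (e.symm j).1 := by linarith
    have h3 := Subtype.ext (hα h2)
    exact e.symm.injective h3
  obtain ⟨M, wt, hwt0, hwt1, hM⟩ := hloc0 k Q β hQ0 hQe hβinj ρ hρ
  refine ⟨M, wt, hwt0, hwt1, ?_⟩
  by_contra hcon
  push Not at hcon
  choose N hN1 hN2 using hcon
  obtain ⟨U, hUle⟩ : ∃ U : Ultrafilter ℕ, (U : Filter ℕ) ≤ atTop := by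
    refine ⟨Filter.hyperfilter ℕ, ?_⟩
    rw [← Nat.cofinite_eq_atTop]
    exact Filter.hyperfilter_le_cofinite
  have hNt : Tendsto N atTop atTop := tendsto_atTop_mono hN1 tendsto_id
  have hNU : Tendsto N (U : Filter ℕ) atTop := hNt.mono_left hUle
  -- the bad scales
  set B := M.filter (fun m => ∀ᶠ j in (U : Filter ℕ), BadS α ε q n₀ (η / 4) (N j / 2 ^ m)) with hB
  have hev : ∀ᶠ j in (U : Filter ℕ), ∀ m ∈ M,
      (BadS α ε q n₀ (η / 4) (N j / 2 ^ m) ↔ m ∈ B) := by
    rw [Filter.eventually_all_finset]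
    intro m hm
    by_cases h : ∀ᶠ j in (U : Filter ℕ), BadS α ε q n₀ (η / 4) (N j / 2 ^ m)
    · filter_upwards [h] with j hj
      rw [hB, mem_filter]
      exact ⟨fun _ => ⟨hm, h⟩, fun _ => hj⟩
    · have h2 : ∀ᶠ j in (U : Filter ℕ), ¬ BadS α ε q n₀ (η / 4) (N j / 2 ^ m) :=
        Ultrafilter.eventually_not.2 h
      filter_upwards [h2] with j hj
      rw [hB, mem_filter]
      exact ⟨fun h3 => absurd h3 hj, fun h3 => absurd h3.2 h⟩
  obtain ⟨j, hj⟩ := hev.exists
  have hsumB : ρ < ∑ m ∈ B, wt m := by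
    refine lt_of_lt_of_le (hN2 j) (le_of_eq ?_)
    refine Finset.sum_congr ?_ fun _ _ => rfl
    ext m
    rw [mem_filter]
    constructor
    · rintro ⟨h1, h2⟩
      exact (hj m h1).1 h2
    · intro h1
      have h2 : m ∈ M := (mem_filter.1 h1).1
      exact ⟨h2, (hj m h2).2 h1⟩
  refine absurd (hM U N hNU B (Finset.filter_subset _ _) ?_) (not_le.2 hsumB)
  intro m hmB
  rw [hB, mem_filter] at hmB
  obtain ⟨hmM, hmbad⟩ := hmB
  have hX : Tendsto (fun j => N j / 2 ^ m) (U : Filter ℕ) atTop :=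
    (Nat.tendsto_div_const_atTop (by positivity)).comp hNU
  have h1 : ∀ᶠ j in (U : Filter ℕ), ∃ i ∈ (({1, -1} : Finset ℝ) ×ˢ Finset.range Q : Finset _),
      (∃ n₁, n₁ ≡ i.2 [MOD Q] ∧ n₁ ≡ n₀ [MOD q] ∧ Fr α ε n₁ ≠ 0) ∧
      (((Finset.Icc 1 (N j / 2 ^ m)).filter
        (fun n => n ≡ i.2 [MOD Q] ∧ Fr α ε n = -i.1)).card : ℝ) ≤
        η / 4 * (((N j / 2 ^ m : ℕ) : ℝ) / Q) := by
    filter_upwards [hmbad, hX.eventually (eventually_ge_atTop Q)] with j hj1 hj2
    obtain ⟨s, hs, c, hc, h2, h3⟩ := class_exists α ε q n₀ Q hQ0 hqQ (η / 4) (by positivity) _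
      hj2 hj1
    exact ⟨(s, c), Finset.mem_product.2 ⟨hs, hc⟩, h2, h3⟩
  obtain ⟨⟨s, c⟩, hsc, h2⟩ := (Ultrafilter.eventually_exists_mem_iff
    (Finset.finite_toSet (({1, -1} : Finset ℝ) ×ˢ Finset.range Q : Finset _))).1 h1
  rw [Finset.mem_coe, Finset.mem_product] at hsc
  obtain ⟨hs, hc⟩ := hsc
  have hs' : s = 1 ∨ s = -1 := by simpa using hs
  obtain ⟨j₀, ⟨n₁, hn₁c, hn₁q, hn₁F⟩, -⟩ := h2.exists
  simp only at hn₁c
  refine ⟨c, (-1) ^ (k + 1) * s, ?_, ?_⟩
  · rcases neg_one_pow_eq_or ℝ (k + 1) with h3 | h3 <;> rcases hs' with h4 | h4 <;>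
      rw [h3, h4] <;> norm_num
  intro p hp
  unfold Pset at hp
  rw [mem_filter, Finset.mem_Ioc] at hp
  obtain ⟨⟨hp1, hp2⟩, hpp, hpQ⟩ := hp
  have hp0 : 0 < p := hpp.pos
  have hpr : (0 : ℝ) < p := by exact_mod_cast hp0
  have hp2' : (p : ℝ) ≤ 2 ^ (m + 1) := by exact_mod_cast hp2
  -- the zeros
  set Z : Finset ℕ → Finset ℕ := fun R => R.filter (fun z => C < z ∧ z ≡ n₁ [MOD WW q w] ∧
    Fr α ε z = 0) with hZ
  have hgoal : (r : ℝ) / (w * Q) / p + η / 4 / (2 ^ m * Q) ≤ η / (p * Q) := by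
    have e1 : η / 4 / (2 ^ m * Q) ≤ η / 2 / (p * Q) := by
      rw [div_div, div_div, div_le_div_iff₀ (by positivity) (by positivity)]
      have : (p : ℝ) ≤ 2 * 2 ^ m := by rw [← pow_succ']; exact hp2'
      have h5 : η * (2 * (p * (Q : ℝ))) ≤ η * (2 * ((2 * 2 ^ m) * Q)) := by gcongr
      nlinarith
    have e2 : (r : ℝ) / (w * Q) / p ≤ η / 2 / (p * Q) := by
      have h5 : (r : ℝ) ≤ η / 2 * w := by
        rw [div_lt_iff₀ hη] at hw1
        linarith
      rw [div_div, div_le_div_iff₀ (by positivity) (by positivity)]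
      calc (r : ℝ) * (p * Q) ≤ (η / 2 * w) * (p * Q) := by gcongr
        _ = η / 2 * (w * Q * p) := by ring
    calc (r : ℝ) / (w * Q) / p + η / 4 / (2 ^ m * Q) ≤ η / 2 / (p * Q) + η / 2 / (p * Q) :=
        add_le_add e2 e1
      _ = η / (p * Q) := by ring
  refine le_trans ?_ hgoal
  obtain ⟨SA, hSA⟩ : ∃ SA : Set ℕ, SA = {y | y ≡ c [MOD Q] ∧ p ∣ y ∧
    rel β lam p y ≠ (-1) ^ (k + 1) * s} := ⟨_, rfl⟩
  rw [← hSA]
  refine dens_le_of_ev hNU _ _ ((C + 1) + (r / (w * Q) * (t + 1)) + t) r (C + t + 1)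
    (Nat.cast_nonneg _) ?_
  filter_upwards [h2] with j hj2
  obtain ⟨-, hj3⟩ := hj2
  set A := (Finset.range (N j)).filter (fun y => y ∈ SA) with hA
  set V := (Finset.Icc 1 (N j / 2 ^ m)).filter (fun n => n ≡ c [MOD Q] ∧ Fr α ε n = -s) with hV
  set V' := (Finset.Ioc (N j / 2 ^ m) (N j / 2 ^ m + t)) with hV'
  have hcardA : A.card ≤ (C + 1) + (Z (Finset.range (N j / p + t + 1))).card + (V.card + t) := by
    have h3 : A.card ≤ (Finset.range (C + 1) ∪ Z (Finset.range (N j / p + t + 1)) ∪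
        (V ∪ V')).card := by
      refine Finset.card_le_card_of_injOn (fun y => y / p + t) ?_ ?_
      · intro y hy
        rw [Finset.mem_coe, hA, mem_filter, mem_range, hSA] at hy
        obtain ⟨hyN, hyc, ⟨u, rfl⟩, hyrel⟩ := hy
        rw [Finset.mem_coe]
        change p * u / p + t ∈ _
        rw [Nat.mul_div_cancel_left u hp0]
        have huN : u ≤ N j / p := by
          rw [Nat.le_div_iff_mul_le hp0]
          linarith [mul_comm p u]
        have huX : u ≤ N j / 2 ^ m := huN.trans (Nat.div_le_div_left hp1.le (by positivity))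
        have h4 : u ≡ c [MOD Q] := by
          have h5 : p * u ≡ 1 * u [MOD Q] := Nat.ModEq.mul_right u hpQ
          rw [one_mul] at h5
          exact h5.symm.trans hyc
        have h5 : u + t ≡ c [MOD Q] := by
          have h6 : t ≡ 0 [MOD Q] := by
            rw [ht]
            exact (Nat.modEq_zero_iff_dvd.2 (Dvd.intro _ rfl))
          have := Nat.ModEq.add h4 h6
          rwa [add_zero] at this
        rw [mem_union, mem_union, mem_union]
        by_cases hC1 : u + t ≤ C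
        · exact Or.inl (Or.inl (mem_range.2 (by omega)))
        push Not at hC1
        by_cases h7 : Fr α ε (u + t) = 0
        · refine Or.inl (Or.inr ?_)
          rw [hZ]
          simp only
          rw [mem_filter, mem_range]
          refine ⟨by omega, hC1, ?_, h7⟩
          rw [← hQ]
          exact h5.trans hn₁c.symm
        right
        have h8 : ∀ i, lam (p * u + p * β i) =
            - lam (((u + t : ℕ) : ℤ) + α (e.symm i).1).toNat := by
          intro i
          have h9 : ((((u + t : ℕ) : ℤ) + α (e.symm i).1).toNat : ℤ) = u + β i := by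
            have h10 := (abs_le.1 (hC (e.symm i).1)).1
            have h11 : (C : ℤ) < ((u + t : ℕ) : ℤ) := by exact_mod_cast hC1
            rw [Int.toNat_of_nonneg (by linarith), hβα]
            push_cast
            ring
          have h10 : (((u + t : ℕ) : ℤ) + α (e.symm i).1).toNat = u + β i := by exact_mod_cast h9
          rw [h10, ← Nat.mul_add, lam_prime_mul hpp]
          intro h11
          have h12 := (Fr_ne_zero_iff α ε hε (u + t)).1 h7 (e.symm i).1
          rw [h10, h11] at h12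
          exact not_squarefree_zero h12
        have h9 : rel β lam p (p * u) = (-1) ^ (k + 1) * Fr α ε (u + t) := by
          unfold rel
          rw [Finset.prod_congr rfl (fun i _ => h8 i), Finset.prod_neg, Finset.card_univ,
            Fintype.card_fin, Fr_eq_prod α ε hε (u + t) h7]
          congr 1
          have h13 := e.symm.prod_comp (fun x => lam (((u + t : ℕ) : ℤ) + α x.1).toNat)
          rw [h13]
          exact Finset.prod_coe_sort ((Finset.univ : Finset (Fin r)).filter (fun i => Odd (ε i)))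
            (fun x => lam (((u + t : ℕ) : ℤ) + α x).toNat)
        have h10 : Fr α ε (u + t) = -s := by
          have h11 : Fr α ε (u + t) ≠ s := by
            intro h12
            apply hyrel
            rw [h9, h12]
          rcases Fr_or α ε (u + t) with h12 | h12 | h12
          · exact absurd h12 h7
          · rcases hs' with h13 | h13
            · rw [h12, h13] at h11; exact absurd rfl h11
            · rw [h12, h13]; norm_num
          · rcases hs' with h13 | h13
            · rw [h12, h13]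
            · rw [h12, h13] at h11; exact absurd rfl h11
        by_cases h11 : u + t ≤ N j / 2 ^ m
        · left
          rw [hV, mem_filter, Finset.mem_Icc]
          exact ⟨⟨by omega, h11⟩, h5, h10⟩
        · right
          rw [hV', Finset.mem_Ioc]
          omega
      · intro y hy z hz hyz
        rw [Finset.mem_coe, hA, mem_filter, hSA] at hy hz
        have h3 : y / p + t = z / p + t := hyz
        obtain ⟨-, -, hy3, -⟩ := hy
        obtain ⟨-, -, hz3, -⟩ := hz
        rw [← Nat.mul_div_cancel' hy3, ← Nat.mul_div_cancel' hz3]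
        congr 1
        omega
    refine h3.trans ((Finset.card_union_le _ _).trans ?_)
    refine add_le_add ((Finset.card_union_le _ _).trans ?_) ((Finset.card_union_le _ _).trans ?_)
    · rw [Finset.card_range]
    · rw [hV', Nat.card_Ioc]
      omega
  have hZc := card_zero_le α ε hε q n₁ w C hq (by omega) hw2.le hn₁F hC (N j / p + t + 1)
  rw [← hQ] at hZc
  have hZc' : ((Z (Finset.range (N j / p + t + 1))).card : ℝ) ≤
      r / (w * Q) / p * N j + r / (w * Q) * (t + 1) +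
        r * (Nat.sqrt (N j + (C + t + 1)) : ℝ) := by
    refine le_trans (le_of_eq ?_) (hZc.trans ?_)
    · rw [hZ]
      simp only
      rw [← hQ]
    · have h5 : ((N j / p + t + 1 : ℕ) : ℝ) ≤ N j / p + (t + 1) := by
        push_cast
        have : ((N j / p : ℕ) : ℝ) ≤ N j / p := Nat.cast_div_le
        linarith
      have h7 : (Nat.sqrt (N j / p + t + 1 + C) : ℝ) ≤ (Nat.sqrt (N j + (C + t + 1)) : ℝ) := by
        have := Nat.div_le_self (N j) p
        exact_mod_cast Nat.sqrt_le_sqrt (by omega)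
      calc (r : ℝ) * (((N j / p + t + 1 : ℕ) : ℝ) / Q * (1 / w) +
            (Nat.sqrt (N j / p + t + 1 + C) : ℝ)) ≤
          (r : ℝ) * ((N j / p + (t + 1)) / Q * (1 / w) +
            (Nat.sqrt (N j + (C + t + 1)) : ℝ)) := by gcongr
        _ = _ := by field_simp
  have hVc : (V.card : ℝ) ≤ η / 4 / (2 ^ m * Q) * N j := by
    refine hj3.trans ?_
    have h5 : ((N j / 2 ^ m : ℕ) : ℝ) ≤ N j / 2 ^ m := by
      have := Nat.cast_div_le (α := ℝ) (m := N j) (n := 2 ^ m)
      push_cast at this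
      exact this
    calc η / 4 * (((N j / 2 ^ m : ℕ) : ℝ) / Q) ≤ η / 4 * ((N j / 2 ^ m) / Q) := by gcongr
      _ = _ := by field_simp
  have hcardA' : (A.card : ℝ) ≤ (C + 1) + ((Z (Finset.range (N j / p + t + 1))).card : ℝ) +
      (V.card + t) := by exact_mod_cast hcardA
  refine hcardA'.trans ?_
  calc ((C : ℝ) + 1) + ((Z (Finset.range (N j / p + t + 1))).card : ℝ) + (V.card + t) ≤
      (C + 1) + (r / (w * Q) / p * N j + r / (w * Q) * (t + 1) +
        r * (Nat.sqrt (N j + (C + t + 1)) : ℝ)) + (η / 4 / (2 ^ m * Q) * N j + t) := by gcongr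
    _ = _ := by ring

/-- FRT -/
theorem pf_FRT : T_FRT := by
  classical
  intro η hη hloc
  refine ⟨η / 4, by positivity, ?_⟩
  intro r α ε q n₀ hα hε hodd hq ρ hρ
  obtain ⟨i₀, hi₀⟩ := hodd
  have hpos : 0 < ((Finset.univ : Finset (Fin r)).filter (fun i => Odd (ε i))).card :=
    Finset.card_pos.2 ⟨i₀, Finset.mem_filter.2 ⟨Finset.mem_univ _, hi₀⟩⟩
  obtain ⟨k, hk⟩ : ∃ k, ((Finset.univ : Finset (Fin r)).filter (fun i => Odd (ε i))).card = k + 1 :=
    ⟨_, (Nat.succ_pred_eq_of_pos hpos).symm⟩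
  obtain ⟨K, hK⟩ := Pool.Agent.H66.AAS.banach (Pool.Agent.H66.AAS.BadS α ε q n₀ (η / 4))
    (stepA' η hη hloc k r α ε q n₀ hα hε hk hq) ρ hρ
  refine ⟨K, fun x y hx hxy => ?_⟩
  refine le_trans (le_of_eq ?_) (hK x y hx hxy)
  refine Finset.sum_congr ?_ fun _ _ => rfl
  ext N
  rw [Finset.mem_filter, Finset.mem_filter]
  rfl

end Pool.Agent.H80.AG
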