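import Mathlib
import Pool.Agent.H80.AG.FRT
import Pool.Agent.H80.AG.Asm9

/-!
ABSOLUTE GAP (`MP_c59857_nt`), section 9: the theorem with an explicit constant.
-/

set_option autoImplicit false

open MeasureTheory ProbabilityTheory Filter Topology Finset
open scoped Nat ENNReal

namespace Pool.Agent.H80.AG

open Pool.Agent.H67.AG

/-- the theorem for the constant `κ` -/
def AbsGapAt (κ : ℝ) : Prop :=
    ∀ (r : ℕ) (α : Fin r → ℤ) (ε : Fin r → ℕ) (q n₀ : ℕ), Function.Injective α →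
      (∀ i, 1 ≤ ε i) → (∃ i, Odd (ε i)) → 0 < q → ∀ ρ : ℝ, 0 < ρ → ∃ K : ℕ, ∀ x y : ℕ, 0 < x →
        K * x ≤ y →
        ∑ N ∈ (Finset.Icc x y).filter (fun N : ℕ =>
          (1 - κ) * (∑ n ∈ (Finset.Icc 1 N).filter (fun n => n ≡ n₀ [MOD q]),
            |∏ i, ((ArithmeticFunction.moebius (((n : ℤ) + α i).toNat) : ℤ) : ℝ) ^ ε i|)
            < |∑ n ∈ (Finset.Icc 1 N).filter (fun n => n ≡ n₀ [MOD q]),
            ∏ i, ((ArithmeticFunction.moebius (((n : ℤ) + α i).toNat) : ℤ) : ℝ) ^ ε i|),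
          (1 : ℝ) / N ≤ ρ * Real.log (y / x)

theorem frt_at (η : ℝ) (hη : 0 < η) (hloc : LocN η) : AbsGapAt (η / 4) := by
  classical
  intro r α ε q n₀ hα hε hodd hq ρ hρ
  obtain ⟨i₀, hi₀⟩ := hodd
  have hpos : 0 < ((Finset.univ : Finset (Fin r)).filter (fun i => Odd (ε i))).card :=
    Finset.card_pos.2 ⟨i₀, Finset.mem_filter.2 ⟨Finset.mem_univ _, hi₀⟩⟩
  obtain ⟨k, hk⟩ : ∃ k, ((Finset.univ : Finset (Fin r)).filter (fun i => Odd (ε i))).card = k + 1 :=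
    ⟨_, (Nat.succ_pred_eq_of_pos hpos).symm⟩
  obtain ⟨K, hK⟩ := Pool.Agent.H66.AAS.banach (Pool.Agent.H66.AAS.BadS α ε q n₀ (η / 4))
    (stepA' η hη hloc k r α ε q n₀ hα hε hk hq) ρ hρ
  refine ⟨K, fun x y hx hxy => ?_⟩
  refine le_trans (le_of_eq ?_) (hK x y hx hxy)
  refine Finset.sum_congr ?_ fun _ _ => rfl
  ext N
  rw [Finset.mem_filter, Finset.mem_filter]
  rfl

/-- if the dynamical data are contradictory, then the local statement holds -/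
theorem loc9 (hS : T_SYS) (h1 : T_ER1) (h2 : T_ER2) (hC : T_CTX) (hE : Ctx → False) :
    LocN (κ₀ / 30) := by
  have hη : (0 : ℝ) < κ₀ / 30 := by unfold κ₀; norm_num
  by_contra hno
  obtain ⟨k, Q, hQ, β, ρ, m, P, hQe, hβ, hρ, hP⟩ := hS _ hη (by unfold κ₀; norm_num) hno
  obtain ⟨κ, hκ, hd, hae⟩ := h1 Q (k + 1) β ρ _ m P hP
  obtain ⟨ω, hω, hfr⟩ := h2 Q (k + 1) β ρ _ m P hρ hη hP κ hκ hd (hae.mono fun _ h => h.1)
    {ω | Ergodic (shM Q) (κ ω) ∧ ∀ W, 0 < W → (κ ω)[DD Q | Inv (shM Q) W] =ᵐ[κ ω] 0} hae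
  have hpr : IsProbabilityMeasure (κ ω) := inferInstance
  obtain ⟨c⟩ := hC Q k β _ m (κ ω) hQe hβ hη (by unfold κ₀; norm_num) hpr hω.1 hω.2 hP.mi hfr
  exact hE c

/-- the explicit form -/
theorem fin9_at (hS : T_SYS) (h1 : T_ER1) (h2 : T_ER2) (hC : T_CTX) (hE : Ctx → False) :
    AbsGapAt (1 / 1200000) := by
  have hη : (0 : ℝ) < κ₀ / 30 := by unfold κ₀; norm_num
  have h := frt_at (κ₀ / 30) hη (loc9 hS h1 h2 hC hE)
  have he : κ₀ / 30 / 4 = 1 / 1200000 := by unfold κ₀; norm_num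
  rwa [he] at h

end Pool.Agent.H80.AG
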