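import Pool.Agent.H41.AG.MMX
import Pool.Agent.H77.AG.ENS
import Pool.Agent.H41.AG.ARR
import Pool.Agent.H50.AG.CPL
import Pool.Agent.H66.AG.UNI
import Pool.Agent.H61.AG.PTO
import Pool.Agent.H41.AG.SYS
import Pool.Agent.H50.AG.MRC
import Pool.Agent.H78.AG.ER1
import Pool.Agent.H49.AG.ER2
import Pool.Agent.H66.AG.CTX
import Pool.Agent.H80.AG.Exp

/-!
ABSOLUTE GAP (`MP_c59857_nt`), section 9: all rows together.
-/

set_option autoImplicit false

open MeasureTheory ProbabilityTheory Filter Topology Finset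
open scoped Nat ENNReal

namespace Pool.Agent.H80.AG

open Pool.Agent.H67.AG

theorem all_MMX : T_MMX := Pool.Agent.H41.AG.pf_MMX

theorem all_ENS : T_ENS := Pool.Agent.H77.AG.pf_ENS

theorem all_ARR : T_ARR := Pool.Agent.H41.AG.pf_ARR all_MMX all_ENS

theorem all_UNI : T_UNI := Pool.Agent.H66.AG.pf_UNI Pool.Agent.H50.AG.pf_CPL

theorem all_SYS : T_SYS := Pool.Agent.H41.AG.pf_SYS all_ARR all_UNI Pool.Agent.H61.AG.pf_PTO

theorem all_ER1 : T_ER1 := Pool.Agent.H78.AG.pf_ER1 Pool.Agent.H50.AG.pf_MRC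

/-- the theorem from the contradiction in the dynamical data -/
theorem all9 (hE : Ctx → False) : AbsGapAt (1 / 1200000) :=
  fin9_at all_SYS all_ER1 Pool.Agent.H49.AG.pf_ER2 Pool.Agent.H66.AG.pf_CTX hE

end Pool.Agent.H80.AG
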